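import Pool.Agent.Helper85.ProC.Goals2
import Pool.Agent.Helper27.ProP.Zp
import Pool.Agent.Helper79.ProP.T1
import Pool.Agent.Helper49.ProP.Hyp

/-! Packet MOD2 of MP_ac806c_lc (adapted from Helper33.ProP2.Mod). -/

set_option autoImplicit false
set_option linter.unusedSectionVars false

namespace Pool.Agent.Helper32.ProC

open Pool.Agent.Helper85.ProP Pool.Agent.Helper27.ProP Pool.Agent.Helper30.ProP
  Pool.Agent.Helper85.ProC IsLocalRing Filter Topology

universe u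

theorem stmtMod2 : StmtMod2.{u} := by
  intro p _ G _ _ _ _ _ _ hp D C hCc hcomm d t htC hgen
  obtain ⟨hH, hρ⟩ := Pool.Agent.Helper49.ProP.stmtHyp p d
  obtain ⟨M, hX, hop, hfg, hstab⟩ := Pool.Agent.Helper79.ProP.stmtT1 p d (CC D)
    (fun i => TT D (t i))
    (fun i j b => by
      have e := hcomm (t i) (htC i) (t j) (htC j) b
      rw [sg_apply, sg_apply, sg_apply, sg_apply] at e
      simp only [TT_apply, map_sub]
      rw [e]
      abel)
    (fun V hV h0 => good_nhds p hp t V hV h0)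
  have hbas : ∀ V : Set (CC D), IsOpen V → (0 : CC D) ∈ V → ∃ U : AddSubgroup (CC D),
      IsOpen (U : Set (CC D)) ∧ (U : Set (CC D)) ⊆ V := by
    intro V hV h0
    obtain ⟨O, hO⟩ := basis_inter V hV h0
    exact ⟨_, inter_open _ O.isOpen', hO⟩
  have hc2 : ∀ b : CC D, Continuous fun q : Fin d → ℤ_[p] => rhoS p d q • b := by
    intro b
    refine cont_smul_of (maximalIdeal (MvPowerSeries (Fin d) ℤ_[p])) hbas hop
      (fun q => rhoS p d q) ?_ b
    intro q0 n
    filter_upwards [eventually_padic_fun q0 n] with q hq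
    obtain ⟨w, hw⟩ := hq
    have e : q = q0 + (p : ℤ_[p]) ^ n • w := by rw [← hw]; abel
    have e2 : rhoS p d q - rhoS p d q0 = rhoS p d q0 * (rhoS p d ((p : ℤ_[p]) ^ n • w) - 1) := by
      rw [e, hH.add]; ring
    rw [e2]
    exact Ideal.mul_mem_left _ _
      (Ideal.pow_le_pow_right (Nat.le_succ n) (hH.p_pow_smul_sub_one_mem w n))
  -- the action
  set S : Set (G × (Fin d → ℤ_[p])) :=
    {hq | ∀ b : CC D, cj D hq.1 b = rhoS p d hq.2 • b} with hS
  have hScl : IsClosed S := by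
    have : S = ⋂ b : CC D, {hq : G × (Fin d → ℤ_[p]) | cj D hq.1 b = rhoS p d hq.2 • b} := by
      ext hq
      simp [hS]
    rw [this]
    exact isClosed_iInter fun b => isClosed_eq ((continuous_cj b).comp continuous_fst)
      ((hc2 b).comp continuous_snd)
  have hSone : ((1 : G), (0 : Fin d → ℤ_[p])) ∈ S := by
    intro b
    show cj D 1 b = rhoS p d 0 • b
    rw [cj_one, hH.zero, one_smul]
  have hSmul : ∀ h q h' q', (h, q) ∈ S → (h', q') ∈ S → (h * h', q + q') ∈ S := by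
    intro h q h' q' h1 h2 b
    show cj D (h * h') b = rhoS p d (q + q') • b
    have e1 : cj D h (cj D h' b) = rhoS p d q • (cj D h' b) := h1 _
    have e2 : cj D h' b = rhoS p d q' • b := h2 b
    rw [cj_mul, e1, e2, hH.add, mul_smul]
  have hSinv : ∀ h q, (h, q) ∈ S → (h⁻¹, -q) ∈ S := by
    intro h q h1 b
    show cj D h⁻¹ b = rhoS p d (-q) • b
    have e1 : cj D h (rhoS p d (-q) • b) = rhoS p d q • (rhoS p d (-q) • b) := h1 _
    rw [smul_smul, hH.mul_neg, one_smul] at e1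
    conv_lhs => rw [← e1]
    rw [← cj_mul, inv_mul_cancel, cj_one]
  have hSx : ∀ i, (t i, Pi.single i (1 : ℤ_[p])) ∈ S := by
    intro i b
    show cj D (t i) b = rhoS p d (Pi.single i 1) • b
    rw [hρ i, add_smul, one_smul, hX i b, TT_apply]
    abel
  have hact1 : ∀ h ∈ C, ∃ q : Fin d → ℤ_[p], ∀ b : CC D, cj D h b = rhoS p d q • b := by
    let L' : Subgroup G :=
      { carrier := Prod.fst '' S
        one_mem' := ⟨_, hSone, rfl⟩
        mul_mem' := by
          rintro _ _ ⟨⟨h, q⟩, h1, rfl⟩ ⟨⟨h', q'⟩, h2, rfl⟩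
          exact ⟨_, hSmul h q h' q' h1 h2, rfl⟩
        inv_mem' := by
          rintro _ ⟨⟨h, q⟩, h1, rfl⟩
          exact ⟨_, hSinv h q h1, rfl⟩ }
    have hL : IsClosed (L' : Set G) := (hScl.isCompact.image continuous_fst).isClosed
    have hle : C ≤ L' := by
      refine hgen L' hL (fun h hh hv => ⟨(h, 0), ?_, rfl⟩) (fun i => ⟨_, hSx i, rfl⟩)
      intro b
      show cj D h b = rhoS p d 0 • b
      rw [hH.zero, one_smul]
      exact hv b
    intro h hh
    obtain ⟨⟨h', q⟩, h3, rfl⟩ := hle hh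
    exact ⟨q, h3⟩
  have hact2 : ∀ q : Fin d → ℤ_[p], ∃ h ∈ C, ∀ b : CC D, cj D h b = rhoS p d q • b := by
    let L' : AddSubgroup (Fin d → ℤ_[p]) :=
      { carrier := Prod.snd '' (S ∩ {x | x.1 ∈ C})
        zero_mem' := ⟨_, ⟨hSone, C.one_mem⟩, rfl⟩
        add_mem' := by
          rintro _ _ ⟨⟨h, q⟩, ⟨h1, hC1⟩, rfl⟩ ⟨⟨h', q'⟩, ⟨h2, hC2⟩, rfl⟩
          exact ⟨_, ⟨hSmul h q h' q' h1 h2, C.mul_mem hC1 hC2⟩, rfl⟩
        neg_mem' := by
          rintro _ ⟨⟨h, q⟩, ⟨h1, hC1⟩, rfl⟩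
          exact ⟨_, ⟨hSinv h q h1, C.inv_mem hC1⟩, rfl⟩ }
    have hcl : IsClosed (S ∩ {x : G × (Fin d → ℤ_[p]) | x.1 ∈ C}) :=
      hScl.inter (hCc.preimage continuous_fst)
    have hL : IsClosed (L' : Set (Fin d → ℤ_[p])) :=
      (hcl.isCompact.image continuous_snd).isClosed
    have h3 : ∀ (z : ℤ_[p]) (i : Fin d), z • (Pi.single i (1 : ℤ_[p]) : Fin d → ℤ_[p]) ∈ L' := by
      intro z i
      refine closed_zp (fun b => ?_) L' hL z ⟨_, ⟨hSx i, htC i⟩, rfl⟩
      fun_prop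
    intro q
    have hq : q ∈ L' := by
      have e : q = ∑ i, q i • (Pi.single i (1 : ℤ_[p]) : Fin d → ℤ_[p]) := pi_eq_sum_univ' q
      rw [e]
      exact L'.sum_mem fun i _ => h3 (q i) i
    obtain ⟨⟨h, q'⟩, ⟨h4, hC4⟩, rfl⟩ := hq
    exact ⟨h, hC4, h4⟩
  refine ⟨M, hact1, hact2, ?_, hop⟩
  intro r
  have h0 : ContinuousAt (fun v : CC D => r • v) 0 := by
    rw [ContinuousAt, smul_zero]
    intro W hW
    obtain ⟨W', hW', hW'o, h0'⟩ := mem_nhds_iff.1 hW
    obtain ⟨U, hUo, hUW, hUT, -⟩ := good_nhds p hp t W' hW'o h0'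
    rw [Filter.mem_map]
    refine Filter.mem_of_superset (hUo.mem_nhds U.zero_mem) fun v hv => ?_
    exact hW' (hUW (hstab U (AddSubgroup.isClosed_of_isOpen U hUo) hUT r v hv))
  exact continuous_of_continuousAt_zero (DistribSMul.toAddMonoidHom (CC D) r) h0

end Pool.Agent.Helper32.ProC
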